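import Pool.Agent.H44.DU.Targets

/-! # Module WE (helper23): long words of the upper part contain a contraction -/

set_option autoImplicit false

namespace Pool.Agent.H23.DU

open Pool.Agent.H44.DU

namespace WE

variable {n : ℕ}

/-- the letter number `k` -/
def rr (w : List (Side n)) (d : Side n) (k : ℕ) : Side n := (w[k]?).getD d

lemma rr_some {w : List (Side n)} {d : Side n} {k : ℕ} (h : k < w.length) :
    w[k]? = some (rr w d k) := by
  unfold rr
  rw [List.getElem?_eq_getElem h]
  rfl

lemma rr_eq {w : List (Side n)} {d r : Side n} {k : ℕ} (h : w[k]? = some r) : rr w d k = r := by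
  unfold rr
  rw [h]
  rfl

lemma take_rr {w : List (Side n)} {d : Side n} {k : ℕ} (h : k < w.length) :
    w.take (k + 1) = w.take k ++ [rr w d k] := by
  rw [List.take_add_one, rr_some (d := d) h]
  rfl

lemma drop_rr {w : List (Side n)} {d : Side n} {k : ℕ} (h : k < w.length) :
    w.drop k = rr w d k :: w.drop (k + 1) := by
  have h1 := rr_some (d := d) h
  rw [List.drop_eq_getElem_cons h]
  rw [List.getElem?_eq_getElem h] at h1
  rw [Option.some.inj h1]

lemma rr_mem {w : List (Side n)} {d : Side n} {k : ℕ} (h : k < w.length) : rr w d k ∈ w := by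
  have h1 := rr_some (d := d) h
  exact List.mem_of_getElem? h1

lemma split2 {w : List (Side n)} {d : Side n} {k : ℕ} (h : k + 1 < w.length) :
    w = w.take k ++ rr w d k :: rr w d (k + 1) :: w.drop (k + 2) := by
  rw [← drop_rr h, ← drop_rr (by omega), List.take_append_drop]

variable (S : Surf n) (t x : ℝ) (w : List (Side n)) (d : Side n)

/-- the coordinate after the letter number `k` -/
noncomputable def yy (k : ℕ) : ℝ := S.g t (w.take (k + 1)) x

variable {S t x w d}

lemma facts (hR : S.Run t w x) {k : ℕ} (h : k + 1 < w.length) :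
    (S.gl (rr w d k)).1 = (rr w d (k + 1)).1 ∧ S.InJ t (rr w d (k + 1)) (yy S t x w k) ∧
      S.InI t (S.gl (rr w d k)) (yy S t x w k) ∧
      yy S t x w (k + 1) = S.mv t (rr w d (k + 1)) (yy S t x w k) := by
  have h1 := S.run_take hR (k + 2)
  rw [take_rr (d := d) h, take_rr (d := d) (show k < w.length by omega), S.run_snoc] at h1
  obtain ⟨h2, h3, h4⟩ := h1
  have e : yy S t x w k = S.g t (w.take k ++ [rr w d k]) x := by
    unfold yy
    rw [take_rr (d := d) (show k < w.length by omega)]
  rw [← e] at h4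
  refine ⟨h3, h4, ?_, ?_⟩
  · rw [S.run_append] at h2
    have h5 := (S.run_single t (rr w d k) _).1 h2.2.2
    rw [← S.inI_gl_iff] at h5
    rw [e, S.g_append, S.g_single]
    exact h5
  · unfold yy
    rw [take_rr (d := d) h, S.g_append, S.g_single]

lemma sub_ev {k M : ℕ} (hM : k + M ≤ w.length) {u' w'' : List (Side n)} {r r' : Side n}
    (h : (w.drop k).take M = u' ++ r :: r' :: w'') :
    k + u'.length + 1 < k + M ∧ rr w d (k + u'.length) = r ∧ rr w d (k + u'.length + 1) = r' ∧
      yy S t x w (k + u'.length) = S.g t (u' ++ [r]) (S.g t (w.take k) x) := by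
  have hl : (u' ++ r :: r' :: w'').length = M := by
    rw [← h, List.length_take, List.length_drop]
    omega
  rw [List.length_append, List.length_cons, List.length_cons] at hl
  have hg : ∀ i < M, (u' ++ r :: r' :: w'')[i]? = w[k + i]? := by
    intro i hi
    rw [← h, List.getElem?_take_of_lt hi, List.getElem?_drop]
  refine ⟨by omega, ?_, ?_, ?_⟩
  · refine rr_eq ?_
    rw [← hg _ (by omega), List.getElem?_append_right (le_refl _)]
    simp
  · refine rr_eq ?_
    rw [add_assoc, ← hg _ (by omega), List.getElem?_append_right (by omega)]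
    simp
  · unfold yy
    have e : w.take (k + u'.length + 1) = w.take k ++ (u' ++ [r]) := by
      rw [add_assoc, List.take_add]
      congr 1
      have e2 : (w.drop k).take (u'.length + 1) = ((w.drop k).take M).take (u'.length + 1) := by
        rw [List.take_take, min_eq_left (by omega)]
      rw [e2, h, List.take_append]
      simp
    rw [e, S.g_append]

/-- the goal of the module, in terms of the index -/
def Ev (S : Surf n) (t x : ℝ) (w : List (Side n)) (d : Side n) (U T : Fin n → Prop) (c : ℝ)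
    (k : ℕ) : Prop :=
  (1 + c) * (S.a (rr w d (k + 1)) * S.hin U T t (rr w d k) (yy S t x w k)) ≤
    S.hin U T t (rr w d (k + 1)) (yy S t x w (k + 1))

lemma hin_one {U T : Fin n → Prop} {r : Side n} {y : ℝ} (h : T (S.gl r).1) :
    S.hin U T t r y = 1 := by
  unfold Surf.hin hgt
  rw [if_pos h]

end WE

open WE in
theorem pf_WE (h1 : T_GA) (h2 : T_GB) (h3 : T_HR) : T_WE := by
  classical
  intro n S U T hM K N
  obtain ⟨c1, hc1, hGA⟩ := h1 n S K
  obtain ⟨c2, hc2, hGB⟩ := h2 n S (3 * n + 1)
  obtain ⟨hH1, hH2, D, hD, hH3⟩ := h3 n S U T hM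
  -- the constant for the scales
  obtain ⟨c3, hc3, ha⟩ : ∃ c3 > 0, ∀ s : Side n, S.a s < 1 → (1 + c3) * S.a s ≤ 1 := by
    by_cases hne : (Finset.univ.filter fun s : Side n => S.a s < 1).Nonempty
    · refine ⟨(Finset.univ.filter fun s : Side n => S.a s < 1).inf' hne
        (fun s => (S.a s)⁻¹ - 1), ?_, fun s hs => ?_⟩
      · rw [gt_iff_lt, Finset.lt_inf'_iff]
        intro s hs
        rw [Finset.mem_filter] at hs
        have := (one_lt_inv₀ (S.a_pos s)).2 hs.2
        linarith
      · have h4 : (Finset.univ.filter fun s : Side n => S.a s < 1).inf' hne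
            (fun s => (S.a s)⁻¹ - 1) ≤ (S.a s)⁻¹ - 1 :=
          Finset.inf'_le (fun s : Side n => (S.a s)⁻¹ - 1)
            (Finset.mem_filter.2 ⟨Finset.mem_univ _, hs⟩)
        calc (1 + _) * S.a s ≤ (1 + ((S.a s)⁻¹ - 1)) * S.a s :=
              mul_le_mul_of_nonneg_right (by linarith) (S.a_pos s).le
          _ = 1 := by
              have := (S.a_pos s).ne'
              field_simp
              ring
    · refine ⟨1, one_pos, fun s hs => ?_⟩
      exact absurd ⟨s, Finset.mem_filter.2 ⟨Finset.mem_univ _, hs⟩⟩ hne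
  set c : ℝ := min c3 (min c1 c2 / D) with hc
  have hcpos : 0 < c := lt_min hc3 (div_pos (lt_min hc1 hc2) hD)
  have hcD : c * D ≤ min c1 c2 := by
    have : c ≤ min c1 c2 / D := min_le_right _ _
    rwa [le_div_iff₀ hD] at this
  have hcc3 : c ≤ c3 := min_le_left _ _
  refine ⟨c, hcpos, 2 * (3 * n + 1) + N + 10, ?_⟩
  intro t ht hB w x hR hU hL
  -- a default letter
  obtain ⟨d, hd⟩ : ∃ d : Side n, d ∈ w := by
    cases w with
    | nil => simp at hL
    | cons d w => exact ⟨d, List.mem_cons_self⟩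
  by_contra hno
  have noEv : ∀ k, k + 1 < w.length → ¬ Ev S t x w d U T c k := by
    intro k hk hev
    refine hno ⟨w.take k, rr w d k, rr w d (k + 1), w.drop (k + 2), split2 hk, ?_⟩
    have e1 : w.take k ++ [rr w d k] = w.take (k + 1) := (take_rr (by omega)).symm
    have e2 : w.take k ++ [rr w d k] ++ [rr w d (k + 1)] = w.take (k + 1 + 1) := by
      rw [e1]
      exact (take_rr hk).symm
    rw [e2, e1]
    exact hev
  have hUr : ∀ k, k < w.length → U (rr w d k).1 := fun k hk => hU _ (rr_mem hk)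
  -- (E1)
  have E1 : ∀ k, k + 1 < w.length → ¬ T (S.gl (rr w d k)).1 →
      min c1 c2 ≤ S.sg t (rr w d k) (rr w d (k + 1)) (yy S t x w k) → False := by
    intro k hk hT hsg
    obtain ⟨f1, f2, f3, f4⟩ := facts (d := d) hR hk
    obtain ⟨-, g2, g3, -⟩ := hH1 t _ _ f2 (hUr _ hk)
    obtain ⟨-, q⟩ := hH2 t _ (rr w d k) (rr w d (k + 1)) f1 (hUr _ hk) f3 f2
    have q2 := (q (by rw [← f1]; exact hT)).1
    have hHD : S.hin U T t (rr w d k) (yy S t x w k) ≤ D :=
      le_trans (le_abs_self _) (hH3 t _ _ (Or.inr f3))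
    refine noEv k hk ?_
    unfold Ev
    rw [f4]
    refine le_trans ?_ g3
    rw [q2]
    have ha0 := S.a_pos (rr w d (k + 1))
    have h5 : c * S.hin U T t (rr w d k) (yy S t x w k) ≤
        S.sg t (rr w d k) (rr w d (k + 1)) (yy S t x w k) :=
      le_trans (mul_le_mul_of_nonneg_left hHD hcpos.le) (hcD.trans hsg)
    nlinarith [mul_le_mul_of_nonneg_left h5 ha0.le]
  -- (E2)
  have E2 : ∀ k, k + 1 < w.length → T (S.gl (rr w d k)).1 → T (S.gl (rr w d (k + 1))).1 →
      S.a (rr w d (k + 1)) = 1 := by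
    intro k hk hT hT'
    by_contra ha1
    obtain ⟨f1, f2, f3, f4⟩ := facts (d := d) hR hk
    obtain ⟨-, -, -, -, g5⟩ := hH1 t _ _ f2 (hUr _ hk)
    have g6 := g5 (by rw [← f1]; exact hT) hT'
    have g7 : S.a (rr w d (k + 1)) < 1 := lt_of_le_of_ne g6 ha1
    refine noEv k hk ?_
    unfold Ev
    rw [hin_one hT, hin_one hT', mul_one]
    refine le_trans (mul_le_mul_of_nonneg_right ?_ (S.a_pos _).le) (ha _ g7)
    linarith
  -- (alpha)
  have alpha : ∀ k q, k + q < w.length → (∀ i ≤ q, T (S.gl (rr w d (k + i))).1) → q ≤ N := by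
    intro k q hkq hT
    have h5 := S.run_take (S.run_drop hR (k + 1)) q
    have h6 := hB ((w.drop (k + 1)).take q) _ ?_ h5
    · rw [List.length_take, List.length_drop] at h6
      omega
    · intro s hs
      obtain ⟨i, hi⟩ := List.mem_iff_getElem?.1 hs
      have hi2 : i < q := by
        by_contra h
        rw [List.getElem?_eq_none (by rw [List.length_take]; omega)] at hi
        cases hi
      rw [List.getElem?_take_of_lt hi2, List.getElem?_drop] at hi
      have e : rr w d (k + i + 1) = s := rr_eq (by rw [← hi]; congr 1; omega)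
      have hk2 : k + i + 1 < w.length := by omega
      obtain ⟨f1, f2, f3, f4⟩ := facts (d := d) hR hk2
      have t1 := hT i hi2.le
      have t2 := hT (i + 1) hi2
      rw [← add_assoc] at t2
      have g1 := (hH1 t _ _ f2 (hUr _ hk2)).1
      rw [← e]
      exact ⟨hUr _ hk2, by rw [← f1]; exact t1, g1, t2, E2 _ hk2 t1 t2⟩
  -- (beta)
  have beta : ∀ k, k + (3 * n + 1) ≤ w.length →
      ∃ j, k ≤ j ∧ j + 1 < k + (3 * n + 1) ∧ T (S.gl (rr w d j)).1 := by
    intro k hk
    obtain ⟨u', r, r', w'', he, hs⟩ := hGA t ht ((w.drop k).take (3 * n + 1)) _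
      (S.run_take (S.run_drop hR k) _) (by rw [List.length_take, List.length_drop]; omega)
    obtain ⟨q1, q2, q3, q4⟩ := sub_ev (S := S) (t := t) (x := x) (d := d) hk he
    refine ⟨k + u'.length, by omega, q1, ?_⟩
    by_contra hT
    refine E1 _ (by omega) hT ?_
    rw [q2, q3, q4]
    exact (min_le_left _ _).trans hs
  -- the indices
  obtain ⟨k1, -, hk1, hT1⟩ := beta 0 (by omega)
  rw [zero_add] at hk1
  have ex2 : ∃ i, ¬ T (S.gl (rr w d (k1 + i))).1 := by
    by_contra h
    push Not at h
    have := alpha k1 (N + 1) (by omega) fun i _ => h i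
    omega
  have hk2 : Nat.find ex2 ≤ N + 1 := by
    by_contra h
    have := alpha k1 (N + 1) (by omega) fun i hi => by
      by_contra h'
      have := Nat.find_min' ex2 h'
      omega
    omega
  have hk2s := Nat.find_spec ex2
  have hk2m : ∀ i < Nat.find ex2, T (S.gl (rr w d (k1 + i))).1 := fun i hi => by
    by_contra h'
    exact Nat.find_min ex2 hi h'
  set i2 := Nat.find ex2 with hi2
  have hi2pos : 0 < i2 := by
    rcases Nat.eq_zero_or_pos i2 with h | h
    · rw [h] at hk2s
      exact absurd hT1 hk2s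
    · exact h
  obtain ⟨j3, hj3, hj3', hT3⟩ := beta (k1 + i2 + 1) (by omega)
  have ex3 : ∃ i, T (S.gl (rr w d (k1 + i2 + 1 + i))).1 :=
    ⟨j3 - (k1 + i2 + 1), by rw [Nat.add_sub_cancel' hj3]; exact hT3⟩
  have hk3 : Nat.find ex3 + 1 < 3 * n + 1 := by
    have := Nat.find_min' ex3 (m := j3 - (k1 + i2 + 1))
      (by rw [Nat.add_sub_cancel' hj3]; exact hT3)
    omega
  have hk3s := Nat.find_spec ex3
  have hk3m : ∀ i < Nat.find ex3, ¬ T (S.gl (rr w d (k1 + i2 + 1 + i))).1 :=
    fun i hi => Nat.find_min ex3 hi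
  set q := Nat.find ex3 with hq
  -- `r_{k2}` and `r_{k3}` are horizontal, `k2 = k1 + i2`, `k3 = k2 + 1 + q`
  have hor2 : (S.P (rr w d (k1 + i2))).im = (S.Q (rr w d (k1 + i2))).im := by
    have hlt : k1 + (i2 - 1) + 1 < w.length := by omega
    obtain ⟨f1, f2, f3, f4⟩ := facts (d := d) hR hlt
    have e : k1 + (i2 - 1) + 1 = k1 + i2 := by omega
    rw [e] at f1 f2
    have g1 := (hH1 t _ _ f2 (hUr _ (by omega))).2.2.2.1
    have t1 := hk2m (i2 - 1) (by omega)
    rw [f1] at t1
    exact g1 ⟨fun _ => hk2s, fun _ => t1⟩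
  have hor3 : (S.P (rr w d (k1 + i2 + 1 + q))).im = (S.Q (rr w d (k1 + i2 + 1 + q))).im := by
    have hlt : k1 + i2 + q + 1 < w.length := by omega
    obtain ⟨f1, f2, f3, f4⟩ := facts (d := d) hR hlt
    have e : k1 + i2 + q + 1 = k1 + i2 + 1 + q := by omega
    rw [e] at f1 f2
    have g1 := (hH1 t _ _ f2 (hUr _ (by omega))).2.2.2.1
    have t1 : ¬ T (S.gl (rr w d (k1 + i2 + q))).1 := by
      rcases Nat.eq_zero_or_pos q with h | h
      · rw [h, add_zero]
        exact hk2s
      · have := hk3m (q - 1) (by omega)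
        rwa [show k1 + i2 + 1 + (q - 1) = k1 + i2 + q by omega] at this
    rw [f1] at t1
    exact g1 ⟨fun h => absurd h t1, fun h => absurd hk3s h⟩
  -- the subword
  have hsub : (w.drop (k1 + i2)).take (q + 2) =
      rr w d (k1 + i2) :: (w.drop (k1 + i2 + 1)).take q ++ [rr w d (k1 + i2 + 1 + q)] := by
    rw [drop_rr (d := d) (show k1 + i2 < w.length by omega), List.take_succ_cons, List.take_add_one,
      List.getElem?_drop, rr_some (d := d) (show k1 + i2 + 1 + q < w.length by omega)]
    rfl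
  have hrun : S.Run t (rr w d (k1 + i2) :: (w.drop (k1 + i2 + 1)).take q ++
      [rr w d (k1 + i2 + 1 + q)]) (S.g t (w.take (k1 + i2)) x) := by
    rw [← hsub]
    exact S.run_take (S.run_drop hR _) _
  obtain ⟨u, l, l', w', he, hs⟩ := hGB t _ _ _ _ (by rw [List.length_take]; omega) hrun hor2 hor3
  rw [← hsub] at he
  obtain ⟨q1, q2, q3, q4⟩ := sub_ev (S := S) (t := t) (x := x) (d := d) (by omega) he
  refine E1 (k1 + i2 + u.length) (by omega) ?_ ?_
  · rcases Nat.eq_zero_or_pos u.length with h | h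
    · rw [h, add_zero]
      exact hk2s
    · have := hk3m (u.length - 1) (by omega)
      rwa [show k1 + i2 + 1 + (u.length - 1) = k1 + i2 + u.length by omega] at this
  · rw [q2, q3, q4]
    exact (min_le_right _ _).trans hs

end Pool.Agent.H23.DU
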